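import Pool.Agent.Helper27.RV.St

/-! Project RV, module NUL. -/

set_option autoImplicit false

open Cardinal Ordinal Set

universe u

namespace Pool.Agent.Helper99.RV

open Pool.Agent.Helper27.RV

lemma mk_iUnion_le_aleph {T I0 : Type u} (h0 : #I0 ≤ ℵ_ 1) (I : I0 → Set T)
    (hI : ∀ i, #(I i) ≤ ℵ_ 1) : #(⋃ i, I i : Set T) ≤ ℵ_ 1 := by
  refine (Cardinal.mk_iUnion_le I).trans ?_
  calc #I0 * ⨆ i, #(I i) ≤ ℵ_ 1 * ℵ_ 1 := mul_le_mul' h0 (ciSup_le' hI)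
    _ = ℵ_ 1 := Cardinal.mul_eq_self (aleph0_le_aleph 1)

theorem pNUL : StNUL.{u} := by
  intro T L J S r hJ
  refine ⟨?_, ?_, ?_, ?_⟩
  · rintro a Y Z hYZ ⟨X, hX, I, hI, h1, h2⟩
    exact ⟨X, hX, I, hI, h1, fun p hp => h2 p (hYZ hp)⟩
  · intro a b hab
    refine ⟨∅, hJ.empty, {b}, ?_, ?_, ?_⟩
    · rw [mk_singleton]
      exact one_le_aleph0.trans (aleph0_le_aleph 1)
    · intro c hc
      rw [mem_singleton_iff] at hc
      rw [hc]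
      exact hab
    · intro p hp _
      exact ⟨b, rfl, p.2, hp⟩
  · intro a I0 Y h0 hY
    choose X hX I hI h1 h2 using hY
    refine ⟨⋃ i, X i, hJ.un I0 X h0 hX, ⋃ i, I i, mk_iUnion_le_aleph h0 I hI, ?_, ?_⟩
    · intro b hb
      obtain ⟨i, hi⟩ := mem_iUnion.1 hb
      exact h1 i b hi
    · intro p hp hpX
      obtain ⟨i, hi⟩ := mem_iUnion.1 hp
      obtain ⟨b, hb, n, hn⟩ := h2 i p hi fun h => hpX (mem_iUnion.2 ⟨i, h⟩)
      exact ⟨b, mem_iUnion.2 ⟨i, hb⟩, n, hn⟩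
  · rintro hU a Z ⟨X, hX, I, hI, h1, h2⟩
    have h3 : Z \ X ∈ J := by
      refine hU a I (fun b => b.1) (Z \ X) hI (fun b => h1 b.1 b.2) ?_
      rintro l ⟨hl, hlX⟩ n
      obtain ⟨b, hb, n', hn⟩ := h2 (l, n) hl hlX
      exact ⟨⟨b, hb⟩, n', hn⟩
    refine hJ.sub _ _ ?_ (hJ.union h3 hX)
    intro l hl
    by_cases hx : l ∈ X
    · exact Or.inr hx
    · exact Or.inl ⟨hl, hx⟩

end Pool.Agent.Helper99.RV
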